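import Pool.Agent.W5h28.FL2

/-!
# Fibonacci and Lucas sums with central binomial coefficients modulo `p²`

The identity `2 cos (2pθ) = 2 - 2 p² ∑_{0<k<p} ∏_{0<j<k} (1 - p²/j²) (2 sin θ)^(2k) / (k² C(2k,k))
- (2 sin θ)^(2p)` and the analogous one for `sin (pθ) / sin θ`, at `θ = π/10` and `θ = 3π/10`, give
closed forms for the four sums with extra factors that are `1` modulo `p²`.
-/

set_option autoImplicit false

namespace Pool.Agent.Results.MP_0a65fc_nt.FourSums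

open Finset

/-- The Lucas numbers `L_0 = 2`, `L_1 = 1`, `L_{n+2} = L_{n+1} + L_n`. -/
def lucas : ℕ → ℤ
  | 0 => 2
  | 1 => 1
  | n + 2 => lucas (n + 1) + lucas n

/-- `a ≡ b (mod p²)`: `a - b = p² c` for some rational `c` whose denominator is prime to `p`. -/
def CongSq (p : ℕ) (a b : ℚ) : Prop := ∃ c : ℚ, ¬ p ∣ c.den ∧ a - b = (p : ℚ) ^ 2 * c

open Pool.Agent.W5h28.FL Pool.Agent.W5h28.Cheb Pool.Agent.W5h28.Zp

lemma lucas_eq : lucas = luc := by
  funext n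
  induction n using Nat.strong_induction_on with
  | _ n ih =>
    match n, ih with
    | 0, _ => rfl
    | 1, _ => rfl
    | n + 2, ih =>
      rw [lucas, luc, ih n (by omega), ih (n + 1) (by omega)]

lemma ep_eq (p : ℕ) (h5 : p % 5 ≠ 0) : jacobiSym p 5 = ep p := by
  rw [jacobiSym.mod_left]
  unfold ep
  have h : p % 5 = 1 ∨ p % 5 = 2 ∨ p % 5 = 3 ∨ p % 5 = 4 := by omega
  have e : (p : ℤ) % ((5 : ℕ) : ℤ) = ((p % 5 : ℕ) : ℤ) := by push_cast; rfl
  rw [e]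
  rcases h with h | h | h | h <;> rw [h] <;> norm_num

lemma luc_fib (n : ℕ) : luc n = 2 * (Nat.fib (n + 1) : ℤ) - Nat.fib n := by
  induction n using Nat.strong_induction_on with
  | _ n ih =>
    match n, ih with
    | 0, _ => simp [luc]
    | 1, _ => simp [luc]
    | n + 2, ih =>
      rw [luc, ih (n + 1) (by omega), ih n (by omega)]
      have h1 := Nat.fib_add_two (n := n)
      have h2 := Nat.fib_add_two (n := n + 1)
      rw [show n + 2 + 1 = n + 1 + 2 by ring, h2, show n + 1 + 1 = n + 2 by ring, h1]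
      push_cast
      ring

lemma luc_sq (n : ℕ) (hn : n % 2 = 1) : luc n ^ 2 = 5 * (Nat.fib n : ℤ) ^ 2 - 4 := by
  have h : ((luc n ^ 2 : ℤ) : ℝ) = ((5 * (Nat.fib n : ℤ) ^ 2 - 4 : ℤ) : ℝ) := by
    push_cast
    have h1 := luc_eq n
    have h2 := fib_eq n
    have h3 : √5 ^ 2 = (5 : ℝ) := Real.sq_sqrt (by norm_num)
    have h4 : Real.goldenRatio ^ n * Real.goldenConj ^ n = -1 := by
      rw [← mul_pow, Real.goldenRatio_mul_goldenConj]
      exact Odd.neg_one_pow (Nat.odd_iff.2 hn)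
    rw [h1]
    have h5 : (√5 * (Nat.fib n : ℝ)) ^ 2 = (Real.goldenRatio ^ n - Real.goldenConj ^ n) ^ 2 := by
      rw [h2]
    rw [mul_pow, h3] at h5
    linear_combination -h5 + 4 * h4
  exact_mod_cast h

lemma luc_double (n : ℕ) (hn : n % 2 = 1) : luc (2 * n) = luc n ^ 2 + 2 := by
  have h : ((luc (2 * n) : ℤ) : ℝ) = ((luc n ^ 2 + 2 : ℤ) : ℝ) := by
    push_cast
    have h4 : Real.goldenRatio ^ n * Real.goldenConj ^ n = -1 := by
      rw [← mul_pow, Real.goldenRatio_mul_goldenConj]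
      exact Odd.neg_one_pow (Nat.odd_iff.2 hn)
    rw [luc_eq n, luc_eq (2 * n), mul_comm 2 n, pow_mul, pow_mul]
    linear_combination -2 * h4
  exact_mod_cast h

lemma fib_double (n : ℕ) : (Nat.fib (2 * n) : ℤ) = Nat.fib n * luc n := by
  rw [luc_fib, Nat.fib_two_mul]
  have h : Nat.fib n ≤ 2 * Nat.fib (n + 1) := by
    have := Nat.fib_le_fib_succ (n := n)
    omega
  push_cast [h]
  ring

lemma ep_sq (p : ℕ) : (ep p : ℚ) ^ 2 = 1 := by
  unfold ep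
  split_ifs <;> norm_num

lemma fib_rel (p : ℕ) (hp : 1 ≤ p) :
    (Nat.fib p : ℚ) = ep p * (luc p - 2 * (Nat.fib ((p : ℤ) - ep p).toNat : ℚ)) := by
  have h := luc_fib p
  unfold ep
  split_ifs with h1
  · have e : ((p : ℤ) - 1).toNat = p - 1 := by omega
    rw [e]
    obtain ⟨n, rfl⟩ : ∃ n, p = n + 1 := ⟨p - 1, by omega⟩
    rw [Nat.add_sub_cancel]
    have h2 := Nat.fib_add_two (n := n)
    rw [show n + 1 + 1 = n + 2 by ring, h2] at h
    have h' : ((luc (n + 1) : ℤ) : ℚ) = 2 * ((Nat.fib n : ℚ) + Nat.fib (n + 1)) - Nat.fib (n + 1) := by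
      rw [h]; push_cast; ring
    rw [h']
    push_cast
    ring
  · have e : ((p : ℤ) - (-1)).toNat = p + 1 := by omega
    rw [e]
    have h' : ((luc p : ℤ) : ℚ) = 2 * (Nat.fib (p + 1) : ℚ) - Nat.fib p := by
      rw [h]; push_cast; ring
    rw [h']
    push_cast
    ring

section main

variable {p : ℕ} (hp : p.Prime)
include hp

lemma I_div (x : ℚ) (hx : I p x) (a : ℕ) (ha : ¬ p ∣ a) : I p (x / a) := by
  rw [div_eq_mul_inv]
  exact I_mul hp hx (I_inv_nat a ha)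

lemma Pi1_D (k : ℕ) (hk : k < p) : D p 2 (1 - Pi1 (p : ℚ) k) := by
  induction k with
  | zero => simpa [Pi1] using D_zero hp 2
  | succ k ih =>
    have h1 := ih (by omega)
    have h2 : ¬ p ∣ (k + 1) := fun h => by
      have := Nat.le_of_dvd (by omega) h
      omega
    have e : Pi1 (p : ℚ) (k + 1) = Pi1 (p : ℚ) k * (1 - (p : ℚ) ^ 2 / ((k : ℚ) + 1) ^ 2) := by
      unfold Pi1; rw [prod_range_succ]
    have h3 : D p 2 ((p : ℚ) ^ 2 / ((k : ℚ) + 1) ^ 2) := by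
      refine ⟨(((k + 1 : ℕ) : ℚ)⁻¹) ^ 2, I_pow hp (I_inv_nat _ h2) 2, ?_⟩
      push_cast
      rw [inv_pow]
      rfl
    have h4 : I p (Pi1 (p : ℚ) k) := by
      have := I_sub hp (I_one hp) (I_of_D hp h1)
      simpa using this
    rw [e, show 1 - Pi1 (p : ℚ) k * (1 - (p : ℚ) ^ 2 / ((k : ℚ) + 1) ^ 2)
      = (1 - Pi1 (p : ℚ) k) + Pi1 (p : ℚ) k * ((p : ℚ) ^ 2 / ((k : ℚ) + 1) ^ 2) by ring]
    exact D_add hp h1 (I_mul_D hp h4 h3)

lemma Pi2_D (k : ℕ) (hk : 2 * k < p) : D p 2 (1 - Pi2 (p : ℚ) k) := by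
  induction k with
  | zero => simpa [Pi2] using D_zero hp 2
  | succ k ih =>
    have h1 := ih (by omega)
    have h2 : ¬ p ∣ (2 * k + 1) := fun h => by
      have := Nat.le_of_dvd (by omega) h
      omega
    have e : Pi2 (p : ℚ) (k + 1) = Pi2 (p : ℚ) k * (1 - (p : ℚ) ^ 2 / (2 * (k : ℚ) + 1) ^ 2) := by
      unfold Pi2; rw [prod_range_succ]
    have h3 : D p 2 ((p : ℚ) ^ 2 / (2 * (k : ℚ) + 1) ^ 2) := by
      refine ⟨(((2 * k + 1 : ℕ) : ℚ)⁻¹) ^ 2, I_pow hp (I_inv_nat _ h2) 2, ?_⟩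
      push_cast
      rw [inv_pow]
      rfl
    have h4 : I p (Pi2 (p : ℚ) k) := by
      have := I_sub hp (I_one hp) (I_of_D hp h1)
      simpa using this
    rw [e, show 1 - Pi2 (p : ℚ) k * (1 - (p : ℚ) ^ 2 / (2 * (k : ℚ) + 1) ^ 2)
      = (1 - Pi2 (p : ℚ) k) + Pi2 (p : ℚ) k * ((p : ℚ) ^ 2 / (2 * (k : ℚ) + 1) ^ 2) by ring]
    exact D_add hp h1 (I_mul_D hp h4 h3)

/-- the sum with inverse central binomial coefficients, from the value of the exact one -/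
lemma sum_inv (f : ℕ → ℤ) (h2 : p ≠ 2) :
    D p 2 ((p : ℚ) * ∑ k ∈ Ico 1 p, (f k : ℚ) / ((k : ℚ) ^ 2 * (Nat.centralBinom k : ℚ))
      - (-(1 / (2 * (p : ℚ))) * (∑ k ∈ range (p + 1), cc (p : ℚ) k * (f k : ℚ)
        - 2 * f 0 + f p))) := by
  have hp0 : (p : ℚ) ≠ 0 := by exact_mod_cast hp.ne_zero
  obtain ⟨m, hm⟩ : ∃ m, p = m + 1 := ⟨p - 1, by have := hp.pos; omega⟩
  have hlast : cc (p : ℚ) p = -1 := by
    have h := cc_self (K := ℚ) m
    rw [← hm] at h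
    rw [h]
    exact Odd.neg_one_pow (hp.odd_of_ne_two h2)
  have e1 : ∑ k ∈ range (p + 1), cc (p : ℚ) k * (f k : ℚ)
      = (∑ k ∈ range m, cc (p : ℚ) (k + 1) * (f (k + 1) : ℚ)) + 2 * f 0 - f p := by
    have hr : range p = range (m + 1) := by rw [hm]
    rw [sum_range_succ, hlast, hr, sum_range_succ', cc_zero]
    ring
  rw [e1, Finset.sum_Ico_eq_sum_range, show p - 1 = m by omega, mul_sum]
  have e2 : ∀ k, cc (p : ℚ) (k + 1) = -2 * (p : ℚ) * (Pi1 (p : ℚ) k *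
      ((p : ℚ) / (Nat.centralBinom (k + 1) : ℚ)) / ((k : ℚ) + 1) ^ 2) := by
    intro k
    rw [cc_eq]
    have a1 := succ_ne (K := ℚ) k
    have a2 := cb_ne (K := ℚ) (k + 1)
    field_simp
  have e3 : -(1 / (2 * (p : ℚ))) * ((∑ k ∈ range m, cc (p : ℚ) (k + 1) * (f (k + 1) : ℚ))
      + 2 * f 0 - f p - 2 * f 0 + f p)
      = ∑ k ∈ range m, Pi1 (p : ℚ) k * ((p : ℚ) / (Nat.centralBinom (k + 1) : ℚ))
        / ((k : ℚ) + 1) ^ 2 * (f (k + 1) : ℚ) := by
    rw [show (∑ k ∈ range m, cc (p : ℚ) (k + 1) * (f (k + 1) : ℚ)) + 2 * f 0 - f p - 2 * f 0 + f p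
      = ∑ k ∈ range m, cc (p : ℚ) (k + 1) * (f (k + 1) : ℚ) by ring, mul_sum]
    refine sum_congr rfl fun k _ => ?_
    rw [e2]
    field_simp
  rw [e3, ← sum_sub_distrib]
  apply D_sum hp
  intro k hk
  have hk' := mem_range.1 hk
  have hnd : ¬ p ∣ (k + 1) := fun h => by
    have := Nat.le_of_dvd (by omega) h
    omega
  have h4 := Pi1_D hp k (by omega)
  have h5 : I p ((p : ℚ) / (Nat.centralBinom (k + 1) : ℚ)) := by
    apply I_p_div_centralBinom hp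
    have : 2 ≤ p := hp.two_le
    nlinarith
  have h6 : I p ((((k + 1 : ℕ) : ℚ)⁻¹) ^ 2) := I_pow hp (I_inv_nat _ hnd) 2
  have h7 : I p (f (k + 1) : ℚ) := I_int hp _
  have e4 : (p : ℚ) * ((f (1 + k) : ℚ) / (((1 + k : ℕ) : ℚ) ^ 2 * (Nat.centralBinom (1 + k) : ℚ)))
      - Pi1 (p : ℚ) k * ((p : ℚ) / (Nat.centralBinom (k + 1) : ℚ))
        / ((k : ℚ) + 1) ^ 2 * (f (k + 1) : ℚ)
      = (1 - Pi1 (p : ℚ) k) * (((p : ℚ) / (Nat.centralBinom (k + 1) : ℚ))
        * ((((k + 1 : ℕ) : ℚ)⁻¹) ^ 2) * (f (k + 1) : ℚ)) := by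
    rw [add_comm 1 k]
    push_cast
    have a1 := succ_ne (K := ℚ) k
    have a2 := cb_ne (K := ℚ) (k + 1)
    field_simp
  rw [e4]
  exact D_mul_I hp h4 (I_mul hp (I_mul hp h5 h6) h7)

/-- the sum with central binomial coefficients, from the value of the exact one -/
lemma sum_cb (f : ℕ → ℤ) (m : ℕ) (hm : p = 2 * m + 1) :
    I p (1 / (p : ℚ) * (∑ k ∈ range (m + 1), dd (2 * (m : ℚ) + 1) k * (f k : ℚ)
        - (-1) ^ m * f m)) ∧
    D p 2 (∑ k ∈ range m, (Nat.centralBinom k : ℚ) * (f k : ℚ) / ((2 * (k : ℚ) + 1) * 16 ^ k)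
      - 1 / (p : ℚ) * (∑ k ∈ range (m + 1), dd (2 * (m : ℚ) + 1) k * (f k : ℚ)
        - (-1) ^ m * f m)) := by
  have hp0 : (p : ℚ) ≠ 0 := by exact_mod_cast hp.ne_zero
  have hpm : (2 * (m : ℚ) + 1) = p := by rw [hm]; push_cast; ring
  have hlast := dd_self (K := ℚ) m
  rw [sum_range_succ, hlast]
  have e3 : 1 / (p : ℚ) * (∑ k ∈ range m, dd (2 * (m : ℚ) + 1) k * (f k : ℚ)
      + (-1) ^ m * f m - (-1) ^ m * f m)
      = ∑ k ∈ range m, Pi2 (p : ℚ) k * (Nat.centralBinom k : ℚ)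
        / ((2 * (k : ℚ) + 1) * 16 ^ k) * (f k : ℚ) := by
    rw [add_sub_cancel_right, mul_sum]
    refine sum_congr rfl fun k _ => ?_
    rw [hpm, dd_eq]
    have a2 := two_succ_ne (K := ℚ) k
    field_simp
  have h16 : ¬ p ∣ 16 := by
    intro h
    have h2 : p ∣ 2 ^ 4 := by simpa using h
    have := hp.dvd_of_dvd_pow h2
    have := (Nat.prime_dvd_prime_iff_eq hp Nat.prime_two).1 this
    omega
  have hbase : ∀ k ∈ range m, I p ((Nat.centralBinom k : ℚ) * (((2 * k + 1 : ℕ) : ℚ)⁻¹ *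
      (((16 : ℕ) : ℚ)⁻¹) ^ k) * (f k : ℚ)) := by
    intro k hk
    have hk' := mem_range.1 hk
    have hnd : ¬ p ∣ (2 * k + 1) := fun h => by
      have := Nat.le_of_dvd (by omega) h
      omega
    exact I_mul hp (I_mul hp (I_nat hp _) (I_mul hp (I_inv_nat _ hnd)
      (I_pow hp (I_inv_nat _ h16) k))) (I_int hp _)
  rw [e3]
  constructor
  · apply I_sum hp
    intro k hk
    have hk' := mem_range.1 hk
    have h4 := Pi2_D hp k (by omega)
    have h5 : I p (Pi2 (p : ℚ) k) := by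
      have := I_sub hp (I_one hp) (I_of_D hp h4)
      simpa using this
    have e : Pi2 (p : ℚ) k * (Nat.centralBinom k : ℚ) / ((2 * (k : ℚ) + 1) * 16 ^ k) * (f k : ℚ)
        = Pi2 (p : ℚ) k * ((Nat.centralBinom k : ℚ) * (((2 * k + 1 : ℕ) : ℚ)⁻¹ *
      (((16 : ℕ) : ℚ)⁻¹) ^ k) * (f k : ℚ)) := by
      have a2 := two_succ_ne (K := ℚ) k
      push_cast
      rw [inv_pow]
      field_simp
    rw [e]
    exact I_mul hp h5 (hbase k hk)
  · rw [← sum_sub_distrib]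
    apply D_sum hp
    intro k hk
    have hk' := mem_range.1 hk
    have h4 := Pi2_D hp k (by omega)
    have e : (Nat.centralBinom k : ℚ) * (f k : ℚ) / ((2 * (k : ℚ) + 1) * 16 ^ k)
        - Pi2 (p : ℚ) k * (Nat.centralBinom k : ℚ) / ((2 * (k : ℚ) + 1) * 16 ^ k) * (f k : ℚ)
        = (1 - Pi2 (p : ℚ) k) * ((Nat.centralBinom k : ℚ) * (((2 * k + 1 : ℕ) : ℚ)⁻¹ *
      (((16 : ℕ) : ℚ)⁻¹) ^ k) * (f k : ℚ)) := by
      have a2 := two_succ_ne (K := ℚ) k
      push_cast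
      rw [inv_pow]
      field_simp
    rw [e]
    exact D_mul_I hp h4 (hbase k hk)

end main

/-- **All four congruences of Q1 hold**, for every prime `p ≠ 2, 5`. Here `ε = (p/5)` and
`q = F_{p-ε} / p`, which is an integer. -/
theorem result (p : ℕ) (hp : p.Prime) (h2 : p ≠ 2) (h5 : p ≠ 5) (ε : ℤ) (hε : ε = jacobiSym p 5)
    (q : ℚ) (hq : q = (Nat.fib ((p : ℤ) - ε).toNat : ℚ) / p) :
    (∃ z : ℤ, q = z) ∧
    CongSq p (p * ∑ k ∈ Ico 1 p, (Nat.fib (2 * k) : ℚ) / ((k : ℚ) ^ 2 * (Nat.centralBinom k : ℚ)))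
      (-ε * (3 * q / 2 + 5 * p * q ^ 2 / 4)) ∧
    CongSq p (p * ∑ k ∈ Ico 1 p, (lucas (2 * k) : ℚ) / ((k : ℚ) ^ 2 * (Nat.centralBinom k : ℚ)))
      (-(5 * q / 2) - 15 * p * q ^ 2 / 4) ∧
    CongSq p (∑ k ∈ range ((p - 3) / 2 + 1),
        (Nat.centralBinom k : ℚ) * (Nat.fib (2 * k + 1) : ℚ) / ((2 * (k : ℚ) + 1) * 16 ^ k))
      ((-1) ^ ((p + 1) / 2) * ε * (q / 2 + 5 * p * q ^ 2 / 8)) ∧
    CongSq p (∑ k ∈ range ((p - 3) / 2 + 1),
        (Nat.centralBinom k : ℚ) * (lucas (2 * k + 1) : ℚ) / ((2 * (k : ℚ) + 1) * 16 ^ k))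
      ((-1) ^ ((p + 1) / 2) * (5 * q / 2 + 5 * p * q ^ 2 / 8)) := by
  have hp0 : (p : ℚ) ≠ 0 := by exact_mod_cast hp.ne_zero
  have hodd : p % 2 = 1 := by
    rcases hp.eq_two_or_odd with h | h
    · exact absurd h h2
    · exact h
  have hp5 : p % 5 ≠ 0 := by
    intro h
    have h1 : 5 ∣ p := Nat.dvd_of_mod_eq_zero h
    exact h5 ((Nat.prime_dvd_prime_iff_eq Nat.prime_five hp).1 h1).symm
  rw [ep_eq p hp5] at hε
  subst hε
  obtain ⟨m, hm⟩ : ∃ m, p = 2 * m + 1 := ⟨p / 2, by omega⟩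
  have h3 : 3 ≤ p := by have := hp.two_le; omega
  have hrange : (p - 3) / 2 + 1 = m := by omega
  have hhalf : (p + 1) / 2 = m + 1 := by omega
  rw [lucas_eq, hrange, hhalf]
  set F : ℚ := (Nat.fib ((p : ℤ) - ep p).toNat : ℚ) with hF
  set L : ℚ := (luc p : ℚ) with hL
  set e : ℚ := (ep p : ℚ) with he
  have he2 : e ^ 2 = 1 := ep_sq p
  have hfr : (Nat.fib p : ℚ) = e * (L - 2 * F) := fib_rel p (by omega)
  have hL2 : L ^ 2 = 5 * (Nat.fib p : ℚ) ^ 2 - 4 := by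
    rw [hL]; exact_mod_cast luc_sq p hodd
  have hq' : (p : ℚ) * q = F := by rw [hq]; field_simp
  have hLL : L ^ 2 = 5 * L * F - 5 * F ^ 2 + 1 := by
    rw [hfr] at hL2
    linear_combination (-1 / 4 : ℚ) * hL2 - (5 / 4 * (L - 2 * F) ^ 2) * he2
  -- exact sums
  have s1 := id_one p hodd hp5
  have s2 := id_two p hodd hp5
  have hp5' : (2 * m + 1) % 5 ≠ 0 := by rw [← hm]; exact hp5
  have s3 := id_three m hp5'
  have s4 := id_four m hp5'
  rw [← hm, ← he] at s3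
  have c1 := sum_inv hp (fun k => (Nat.fib (2 * k) : ℤ)) h2
  have c2 := sum_inv hp (fun k => luc (2 * k)) h2
  obtain ⟨-, c3⟩ := sum_cb hp (fun k => (Nat.fib (2 * k + 1) : ℤ)) m hm
  obtain ⟨i4, c4⟩ := sum_cb hp (fun k => luc (2 * k + 1)) m hm
  obtain ⟨i3, -⟩ := sum_cb hp (fun k => (Nat.fib (2 * k + 1) : ℤ)) m hm
  simp only [Int.cast_natCast] at c1 c3 i3
  rw [s1] at c1
  rw [s2] at c2
  rw [s3] at c3 i3
  rw [s4] at c4 i4
  rw [← hm, ← hL] at c4 i4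
  rw [← hm] at c3 i3
  -- divisibility
  have hsgn : ((-1 : ℚ) ^ m) ^ 2 = 1 := by rw [← pow_mul, mul_comm, pow_mul]; norm_num
  have dL : D p 1 (1 - L) := by
    refine ⟨(-1) ^ m * (1 / (p : ℚ) * ((-1) ^ m - (-1) ^ m * L)), ?_, ?_⟩
    · exact I_mul hp (I_pow hp (I_neg (I_one hp)) m) i4
    · field_simp
      linear_combination (L - 1) * hsgn
  have dFp : D p 1 (e - Nat.fib p) := by
    refine ⟨(-1) ^ m * (1 / (p : ℚ) * ((-1) ^ m * e - (-1) ^ m * Nat.fib p)), ?_, ?_⟩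
    · exact I_mul hp (I_pow hp (I_neg (I_one hp)) m) i3
    · field_simp
      linear_combination ((Nat.fib p : ℚ) - e) * hsgn
  have hn2 : ¬ p ∣ 2 := fun h => h2 ((Nat.prime_dvd_prime_iff_eq hp Nat.prime_two).1 h)
  have half : I p (((2 : ℕ) : ℚ)⁻¹) := I_inv_nat 2 hn2
  have ie : I p e := I_int hp _
  have dF : D p 1 F := by
    have h : D p 1 ((e * (e - Nat.fib p) - (1 - L)) * ((2 : ℕ) : ℚ)⁻¹) :=
      D_mul_I hp (D_sub hp (I_mul_D hp ie dFp) dL) half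
    have h' : (e * (e - Nat.fib p) - (1 - L)) * ((2 : ℕ) : ℚ)⁻¹ = F := by
      rw [hfr]
      push_cast
      linear_combination (1 / 2 * (1 - (L - 2 * F))) * he2
    rwa [h'] at h
  -- q is an integer
  have hqz : ∃ z : ℤ, q = z := by
    have h : D p 1 (((Nat.fib ((p : ℤ) - ep p).toNat : ℤ)) : ℚ) := by
      rw [Int.cast_natCast]; exact dF
    obtain ⟨z, hz⟩ := dvd_of_D_one hp h
    refine ⟨z, ?_⟩
    have h' : F = p * z := by
      rw [hF]
      have : (((Nat.fib ((p : ℤ) - ep p).toNat : ℤ)) : ℚ) = ((p : ℤ) * z : ℤ) := by rw [hz]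
      push_cast at this
      exact this
    rw [h'] at hq'
    exact mul_left_cancel₀ hp0 hq'
  set u : ℚ := L - 1 - 5 * F / 2 with hu
  set v : ℚ := L + 1 - 5 * F / 2 with hv
  have huv : u * v = 5 / 4 * F ^ 2 := by
    rw [hu, hv]; linear_combination hLL
  have hvu : v = u + 2 := by rw [hu, hv]; ring
  -- inverse of v
  have iv : I p (v⁻¹) := by
    have h4 : ¬ (p : ℤ) ∣ (2 * luc p + 2 - 5 * (Nat.fib ((p : ℤ) - ep p).toNat : ℤ)) := by
      intro hd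
      have d1 : D p 1 ((4 : ℤ) : ℚ) := by
        have a1 : D p 1 (((2 * luc p + 2 - 5 * (Nat.fib ((p : ℤ) - ep p).toNat : ℤ) : ℤ)) : ℚ) :=
          D_one_of_dvd hp hd
        have a2 : D p 1 (2 * (1 - L)) := I_mul_D hp (I_nat hp 2) dL
        have a3 : D p 1 (5 * F) := I_mul_D hp (I_nat hp 5) dF
        have a4 := D_add hp (D_add hp a1 a2) a3
        have a5 : (((2 * luc p + 2 - 5 * (Nat.fib ((p : ℤ) - ep p).toNat : ℤ) : ℤ)) : ℚ)
            + 2 * (1 - L) + 5 * F = ((4 : ℤ) : ℚ) := by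
          rw [hL, hF]; push_cast; ring
        rwa [a5] at a4
      have d2 := dvd_of_D_one hp d1
      have d3 : p ∣ 2 ^ 2 := by exact_mod_cast d2
      exact hn2 (hp.dvd_of_dvd_pow d3)
    have h5 := I_inv _ h4
    have h6 : v⁻¹ = 2 * ((((2 * luc p + 2 - 5 * (Nat.fib ((p : ℤ) - ep p).toNat : ℤ) : ℤ)) : ℚ))⁻¹ := by
      have : ((((2 * luc p + 2 - 5 * (Nat.fib ((p : ℤ) - ep p).toNat : ℤ) : ℤ)) : ℚ)) = 2 * v := by
        rw [hv, hL, hF]; push_cast; ring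
      rw [this, mul_inv]
      ring
    rw [h6]
    exact I_mul hp (I_nat hp 2) h5
  have hv0 : v ≠ 0 := by
    intro h
    have h1 : (2 : ℚ) * (luc p : ℚ) + 2 - 5 * F = 0 := by
      rw [← hL]; rw [hv] at h; linear_combination 2 * h
    have a2 : D p 1 (2 * (1 - L)) := I_mul_D hp (I_nat hp 2) dL
    have a3 : D p 1 (5 * F) := I_mul_D hp (I_nat hp 5) dF
    have a4 := D_add hp a2 a3
    have a5 : 2 * (1 - L) + 5 * F = ((4 : ℤ) : ℚ) := by
      push_cast; linear_combination -h1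
    rw [a5] at a4
    have d2 := dvd_of_D_one hp a4
    have d3 : p ∣ 2 ^ 2 := by exact_mod_cast d2
    exact hn2 (hp.dvd_of_dvd_pow d3)
  have du : D p 2 u := by
    have h : u = F * F * (5 * ((2 : ℕ) : ℚ)⁻¹ * ((2 : ℕ) : ℚ)⁻¹ * v⁻¹) := by
      have : u = u * v * v⁻¹ := by field_simp
      rw [this, huv]
      push_cast
      ring
    rw [h]
    exact D_mul_I hp (D_mul hp dF dF) (I_mul hp (I_mul hp (I_mul hp (I_nat hp 5) half) half) iv)
  have dFu : D p 3 (F * u) := D_mul hp dF du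
  have duu : D p 3 (u * u) := D_mono hp (by norm_num) (D_mul hp du du)
  refine ⟨hqz, ?_, ?_, ?_, ?_⟩
  · obtain ⟨c, hc, h⟩ := D_add hp c1 (D_mul_I hp (D_div hp dFu)
      (I_mul hp (I_mul hp (I_neg (I_nat hp 3)) half) ie))
    refine ⟨c, hc, ?_⟩
    rw [← h]
    have hd := fib_double p
    have hd' : (Nat.fib (2 * p) : ℚ) = Nat.fib p * L := by rw [hL]; exact_mod_cast hd
    rw [hd', hfr]
    have hqq : q = F / p := by rw [← hq']; field_simp
    rw [hqq, hu]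
    push_cast
    simp only [mul_zero, Nat.fib_zero, Nat.cast_zero]
    field_simp
    linear_combination (-8 * e) * hLL
  · obtain ⟨c, hc, h⟩ := D_add hp c2 (D_mul_I hp (D_div hp dFu)
      (I_mul hp (I_neg (I_nat hp 5)) half))
    refine ⟨c, hc, ?_⟩
    rw [← h]
    have hd := luc_double p hodd
    have hd' : (luc (2 * p) : ℚ) = L ^ 2 + 2 := by rw [hL]; exact_mod_cast hd
    rw [hd']
    have hqq : q = F / p := by rw [← hq']; field_simp
    rw [hqq, hu]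
    push_cast
    simp only [luc]
    field_simp
    push_cast
    linear_combination (-8 : ℚ) * hLL
  · obtain ⟨c, hc, h⟩ := D_add hp c3 (D_mul_I hp (D_div hp duu)
      (I_mul hp (I_mul hp half ie) (I_pow hp (I_neg (I_one hp)) m)))
    refine ⟨c, hc, ?_⟩
    rw [← h, hfr]
    have hqq : q = F / p := by rw [← hq']; field_simp
    rw [hqq, hu, pow_succ]
    push_cast
    field_simp
    linear_combination (-32 * (-1) ^ m * e) * hLL
  · obtain ⟨c, hc, h⟩ := D_add hp c4 (D_mul_I hp (D_div hp duu)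
      (I_mul hp half (I_pow hp (I_neg (I_one hp)) m)))
    refine ⟨c, hc, ?_⟩
    rw [← h]
    have hqq : q = F / p := by rw [← hq']; field_simp
    rw [hqq, hu, pow_succ]
    push_cast
    field_simp
    linear_combination (-32 * (-1) ^ m) * hLL

end Pool.Agent.Results.MP_0a65fc_nt.FourSums
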